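import Pool.Agent.H635.RG.Al

/-!
# `minadd < add(I_id)` is consistent with ZFC (Q2, negative answer)

`N` is a countable transitive model of ZFC (`IsZFC`), a set of sets. `fnc f` is the function `f`
as a set, and `IsAleph1 N K` says that `K` is the first uncountable cardinal of `N`.
`AddLe N f K` (see `Pool/Agent/H635/RG/Def.lean`) says that in `N` there is a family, indexed by
the set `K`, of members of the Yorioka ideal `I_f` whose union is not in `I_f`, so that
`add(I_f) ≤ |K|` in `N`. The theorem says that in `N`, for some strictly increasing `f`,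
`add(I_f) ≤ ℵ₁`, so that `minadd = ℵ₁` (every `I_g` is closed under countable unions), and that
`add(I_id) ≤ ℵ₁` is false. Hence `minadd = ℵ₁ < add(I_id)` in `N`.
-/

set_option autoImplicit false

namespace Pool.Agent.Results.MP_9fd5aa_lc.MinaddLtAddId

open Pool.Agent.W868 Pool.Agent.H635.RG
open Pool.Agent.H635.RF (fnc)

/-- There is a countable transitive model of ZFC in which `minadd = ℵ₁ < add(I_id)`. -/
theorem result : ∃ N : Set ZFSet.{0}, N.Countable ∧ IsZFC N ∧ ∃ K, IsAleph1 N K ∧
    (∃ f : ℕ → ℕ, StrictMono f ∧ fnc f ∈ N ∧ AddLe N f K) ∧ ¬ AddLe N id K :=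
  exists_model'

end Pool.Agent.Results.MP_9fd5aa_lc.MinaddLtAddId
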